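import Pool.Agent.Lib.MP_562b47_mp.SYR.Good
import Pool.Agent.Lib.MP_562b47_mp.WO.Meas

/-!
MP_562b47, slabs, bridge: the properties of the instance used by Lemma H' and by the
assembly: (g1)-(g4), free intervals, existence of blocks.
-/

open Finset Matrix

set_option linter.unusedSectionVars false

namespace Pool.Agent.Lib.MP_562b47_mp.SYR

open Pool.Agent.Lib.MP_562b47_mp.SX Pool.Agent.Lib.MP_562b47_mp.WO Pool.Agent.Lib.MP_562b47_mp
open Pool.Agent.Lib.MP_562b47_mp.RD (lw jlo jhi lw_pos jhi_sub jlo_ge' jhi_le' jlo_lt_jhi J_disj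
  Icc_disj cor dir dir_in dir_cases sh_val)

namespace Par

variable {d : ℕ} {c : ℝ} {F : Type} [Fintype F] [DecidableEq F] [Thin F] {ι : Type*} [Fintype ι]
  [DecidableEq ι] (P : Par d c F ι)

/-- there is a block of every class centred at every site where it fits -/
theorem exists_blk {j : ℕ} (hj : j ≤ P.M) (s : ι)
    (h : ∀ x, rel (P.pos s) x ∈ bq d F (P.G.b * ((P.N0 + j : ℕ) : ℤ)) → x ∈ Set.range P.pos) :
    ∃ q : P.Blk, P.cls q = j ∧ P.ctr q = s :=
  ⟨⟨(⟨j, by omega⟩, s), h⟩, rfl, rfl⟩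

/-- complete except possibly at the site `s` -/
def acomp (q : P.Blk) (s : ι) (V : ι → ℝ) : Prop :=
  ∀ x ∈ P.sys.Q q, x ≠ P.sys.w q → x ≠ s → V x ∈ Set.Icc (P.sys.lo q x) (P.sys.hi q x)

theorem acomp_of_comp {q : P.Blk} {s : ι} {V : ι → ℝ} (h : P.sys.comp q V) : P.acomp q s V :=
  fun x hx hxw _ => h x hx hxw

/-- (g4): two different blocks which are complete except possibly at `s` have at most the site `s`
in common -/
theorem g4 {q q' : P.Blk} (hne : q ≠ q') {s : ι} {V : ι → ℝ} (h : P.acomp q s V)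
    (h' : P.acomp q' s V) {x : ι} (hx : x ∈ P.sys.Q q) (hx' : x ∈ P.sys.Q q') : x = s :=
  P.g4' hne (fun x hx hw hs => h x (P.mem_Q.mpr hx) hw hs)
    (fun x hx hw hs => h' x (P.mem_Q.mpr hx) hw hs) (P.mem_Q.mp hx) (P.mem_Q.mp hx')

/-- (g4), the common site is a corner, in particular a port site -/
theorem g4_corner {q q' : P.Blk} (hne : q ≠ q') {s : ι} {V : ι → ℝ} (h : P.acomp q s V)
    (h' : P.acomp q' s V) (hs : s ∈ P.sys.Q q) (hs' : s ∈ P.sys.Q q') :
    cor (P.rad q) (P.co q s).1 := by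
  refine RD.single_corner (s' := (P.pos (P.ctr q')).1) (P.rad_ge q) (P.rad_ge q')
    (mem_bq.mp (P.mem_Q.mp hs)) (mem_bq.mp (P.mem_Q.mp hs')) ?_
  intro y hy hy'
  obtain ⟨i, hi⟩ := P.ran q (y, (P.pos s).2) (mem_bq.mpr hy)
  have h1 : i ∈ P.sys.Q q := P.mem_Q.mpr (mem_bq.mpr (by unfold co; rw [hi]; exact hy))
  have h2 : i ∈ P.sys.Q q' := P.mem_Q.mpr (mem_bq.mpr (by unfold co; rw [hi]; exact hy'))
  have h3 := P.g4 hne h h' h1 h2
  rw [h3] at hi
  exact (congrArg Prod.fst hi).symm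

theorem cor_L {q : P.Blk} {s : ι} (h : cor (P.rad q) (P.co q s).1) : s ∈ P.sys.L q := by
  rw [P.mem_L, mem_prt1]
  have hd := P.G.hd
  exact RD.prt_of (j := ⟨0, by omega⟩) (RD.cor_bq (P.rad_ge q) h) (h _)

/-- (g4): at most one almost complete block has `s` as an inner site -/
theorem g4_inner {q q' : P.Blk} {s : ι} {V : ι → ℝ} (h : P.acomp q s V)
    (h' : P.acomp q' s V) (hs : s ∈ P.sys.qi q) (hs' : s ∈ P.sys.Q q') : q = q' := by
  by_contra hne
  have hsQ : s ∈ P.sys.Q q := ((P.sys.mem_qi).mp hs).1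
  exact ((P.sys.mem_qi).mp hs).2 (P.cor_L (P.g4_corner hne h h' hsQ hs'))

/-- the sign pattern of a corner -/
noncomputable def sg (q : P.Blk) (s : ι) : Finset (Fin d) :=
  univ.filter fun j => (P.co q s).1 j = P.rad q

theorem card_sg : (Finset.univ : Finset (Finset (Fin d))).card = 2 ^ d := by
  rw [Finset.card_univ, Fintype.card_finset, Fintype.card_fin]

theorem sg_co {q q' : P.Blk} {s : ι} (h : P.sg q s = P.sg q' s) (j : Fin d) :
    (P.co q s).1 j = P.rad q ↔ (P.co q' s).1 j = P.rad q' := by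
  have h2 : j ∈ P.sg q s ↔ j ∈ P.sg q' s := by rw [h]
  simpa only [sg, mem_filter, mem_univ, true_and] using h2

/-- (g4): at most `2 ^ d` blocks containing `s` are complete except possibly at `s` -/
theorem g4_card {s : ι} {V : ι → ℝ} {S : Finset P.Blk}
    (hS : ∀ q ∈ S, s ∈ P.sys.Q q ∧ P.acomp q s V) : S.card ≤ 2 ^ d := by
  classical
  by_cases h1 : S.card ≤ 1
  · exact h1.trans Nat.one_le_two_pow
  have hex : ∀ q ∈ S, cor (P.rad q) (P.co q s).1 := by
    intro q hq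
    obtain ⟨q', hq', hne⟩ := Finset.exists_mem_ne (s := S) (by omega) q
    exact P.g4_corner (Ne.symm hne) (hS q hq).2 (hS q' hq').2 (hS q hq).1 (hS q' hq').1
  have hinj : Set.InjOn (fun q => P.sg q s) S := by
    intro q hq q' hq' hff
    by_contra hne
    have hd := P.G.hd
    have c1 := hex q hq
    have c2 := hex q' hq'
    have r1 := P.rad_ge q
    have r2 := P.rad_ge q'
    obtain ⟨j⟩ : Nonempty (Fin d) := ⟨⟨0, by omega⟩⟩
    have hj := P.sg_co hff j
    set t : ℤ := dir (P.rad q) (P.co q s).1 j with ht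
    have ht1 := dir_in r1 (c1 j)
    have hb1 : RD.rel (P.pos (P.ctr q)).1 (GD.sh (P.pos s).1 j t) ∈ RD.bq d (P.rad q) := by
      rw [RD.rel_sh, RD.mem_bq]
      intro i
      have e1 : RD.rel (P.pos (P.ctr q)).1 (P.pos s).1 i = P.rad q ∨
        RD.rel (P.pos (P.ctr q)).1 (P.pos s).1 i = -P.rad q := c1 i
      have ht1' : (RD.rel (P.pos (P.ctr q)).1 (P.pos s).1 j = P.rad q ∧
          dir (P.rad q) (P.co q s).1 j = -1) ∨
          (RD.rel (P.pos (P.ctr q)).1 (P.pos s).1 j = -P.rad q ∧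
          dir (P.rad q) (P.co q s).1 j = 1) := ht1
      rcases sh_val (RD.rel (P.pos (P.ctr q)).1 (P.pos s).1) j i t with ⟨k1, k2⟩ | ⟨k1, k2⟩
      · subst k1
        rw [k2]
        rcases ht1' with ⟨h3, h4⟩ | ⟨h3, h4⟩ <;> rw [← ht] at h4 <;> omega
      · rw [k2]
        omega
    have hb2 : RD.rel (P.pos (P.ctr q')).1 (GD.sh (P.pos s).1 j t) ∈ RD.bq d (P.rad q') := by
      rw [RD.rel_sh, RD.mem_bq]
      intro i
      have e2 : RD.rel (P.pos (P.ctr q')).1 (P.pos s).1 i = P.rad q' ∨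
        RD.rel (P.pos (P.ctr q')).1 (P.pos s).1 i = -P.rad q' := c2 i
      have e1 : RD.rel (P.pos (P.ctr q)).1 (P.pos s).1 j = P.rad q ∨
        RD.rel (P.pos (P.ctr q)).1 (P.pos s).1 j = -P.rad q := c1 j
      have ht1' : (RD.rel (P.pos (P.ctr q)).1 (P.pos s).1 j = P.rad q ∧
          dir (P.rad q) (P.co q s).1 j = -1) ∨
          (RD.rel (P.pos (P.ctr q)).1 (P.pos s).1 j = -P.rad q ∧
          dir (P.rad q) (P.co q s).1 j = 1) := ht1
      have hj' : RD.rel (P.pos (P.ctr q)).1 (P.pos s).1 j = P.rad q ↔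
        RD.rel (P.pos (P.ctr q')).1 (P.pos s).1 j = P.rad q' := hj
      rcases sh_val (RD.rel (P.pos (P.ctr q')).1 (P.pos s).1) j i t with ⟨k1, k2⟩ | ⟨k1, k2⟩
      · subst k1
        rw [k2]
        rcases ht1' with ⟨h3, h4⟩ | ⟨h3, h4⟩
        · rw [← ht] at h4
          have := hj'.mp h3
          omega
        · rw [← ht] at h4
          have h5 : ¬ RD.rel (P.pos (P.ctr q)).1 (P.pos s).1 i = P.rad q := by omega
          have h6 := fun h => h5 (hj'.mpr h)
          omega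
      · rw [k2]
        omega
    obtain ⟨i, hi⟩ := P.ran q (GD.sh (P.pos s).1 j t, (P.pos s).2) (mem_bq.mpr hb1)
    have m1 : i ∈ P.sys.Q q := P.mem_Q.mpr (mem_bq.mpr (by unfold co; rw [hi]; exact hb1))
    have m2 : i ∈ P.sys.Q q' := P.mem_Q.mpr (mem_bq.mpr (by unfold co; rw [hi]; exact hb2))
    have his := P.g4 hne (hS q hq).2 (hS q' hq').2 m1 m2
    rw [his] at hi
    exact RD.sh_ne (by
      have := dir_cases (P.rad q) (P.co q s).1 j
      omega) (congrArg Prod.fst hi).symm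
  calc S.card ≤ (Finset.univ : Finset (Finset (Fin d))).card :=
        Finset.card_le_card_of_injOn (fun q => P.sg q s)
          (fun _ _ => Finset.mem_coe.mpr (Finset.mem_univ _)) hinj
    _ = 2 ^ d := card_sg

/-- (g1): if the centre of `q` is in the block `q'`, the two blocks share another site -/
theorem g1 {q q' : P.Blk} (h : P.sys.w q ∈ P.sys.Q q') :
    ∃ x, x ≠ P.sys.w q ∧ x ∈ P.sys.Q q ∧ x ∈ P.sys.Q q' := by
  have h0 : P.sys.w q = P.ctr q := rfl
  rw [h0] at h ⊢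
  have hd := P.G.hd
  have r1 := P.rad_ge q
  have r2 := P.rad_ge q'
  have h1 : ∀ j, -P.rad q' ≤ RD.rel (P.pos (P.ctr q')).1 (P.pos (P.ctr q)).1 j ∧
      RD.rel (P.pos (P.ctr q')).1 (P.pos (P.ctr q)).1 j ≤ P.rad q' :=
    RD.mem_bq.mp (mem_bq.mp (P.mem_Q.mp h))
  obtain ⟨j⟩ : Nonempty (Fin d) := ⟨⟨0, by omega⟩⟩
  obtain ⟨t, ht⟩ : ∃ t : ℤ, (t = 1 ∨ t = -1) ∧
      -(P.rad q') ≤ RD.rel (P.pos (P.ctr q')).1 (P.pos (P.ctr q)).1 j + t ∧
      RD.rel (P.pos (P.ctr q')).1 (P.pos (P.ctr q)).1 j + t ≤ P.rad q' := by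
    have := h1 j
    by_cases h3 : RD.rel (P.pos (P.ctr q')).1 (P.pos (P.ctr q)).1 j = P.rad q'
    · exact ⟨-1, by omega⟩
    · exact ⟨1, by omega⟩
  have hb : RD.rel (P.pos (P.ctr q)).1 (GD.sh (P.pos (P.ctr q)).1 j t) ∈
      RD.bq d (P.rad q) := by
    rw [RD.rel_sh, RD.rel_self, RD.mem_bq]
    intro i
    rcases sh_val (1 : Fin d → ℤ) j i t with ⟨k1, k2⟩ | ⟨k1, k2⟩ <;>
      rw [k2, Pi.one_apply] <;> omega
  have hb' : RD.rel (P.pos (P.ctr q')).1 (GD.sh (P.pos (P.ctr q)).1 j t) ∈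
      RD.bq d (P.rad q') := by
    rw [RD.rel_sh, RD.mem_bq]
    intro i
    rcases sh_val (RD.rel (P.pos (P.ctr q')).1 (P.pos (P.ctr q)).1) j i t with
      ⟨k1, k2⟩ | ⟨k1, k2⟩
    · subst k1
      rw [k2]
      exact ht.2
    · rw [k2]
      exact h1 i
  obtain ⟨i, hi⟩ := P.ran q (GD.sh (P.pos (P.ctr q)).1 j t, (P.pos (P.ctr q)).2)
    (mem_bq.mpr hb)
  refine ⟨i, ?_, P.mem_Q.mpr (mem_bq.mpr (by unfold co; rw [hi]; exact hb)),
    P.mem_Q.mpr (mem_bq.mpr (by unfold co; rw [hi]; exact hb'))⟩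
  rintro rfl
  exact RD.sh_ne (by omega) (congrArg Prod.fst hi).symm

/-- (g2): all sites at sup-distance at most two from the centre exist and are inner sites -/
theorem g2 {q : P.Blk} (hN : 2 ≤ P.N0) {y : St d F}
    (h : ∀ j, |y.1 j - (P.pos (P.ctr q)).1 j| ≤ 2) :
    ∃ x, P.pos x = y ∧ x ∈ P.sys.qi q := by
  have r1 : 6 ≤ P.rad q := by
    have h1 : (2 : ℤ) ≤ P.num q := by exact_mod_cast hN.trans (P.num_ge q)
    have h2 := P.G.hb
    unfold rad
    nlinarith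
  have hq : rel (P.pos (P.ctr q)) y ∈ SX.qi d F (P.rad q) := by
    rw [mem_qi1, RD.mem_qi]
    intro j
    have := abs_le.mp (h j)
    simp only [rel, RD.rel]
    omega
  obtain ⟨i, rfl⟩ := P.ran q _ (qi_sub _ hq)
  exact ⟨i, rfl, P.mem_qi'.mpr hq⟩

theorem rad_le {q q' : P.Blk} (hc : P.cls q ≤ P.cls q') : P.rad q ≤ P.rad q' := by
  have h1 : (P.num q : ℤ) ≤ P.num q' := by
    unfold num
    push_cast
    have : (P.cls q : ℤ) ≤ P.cls q' := by exact_mod_cast hc
    linarith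
  have h2 := P.G.hb
  unfold rad
  nlinarith

/-- a block of larger class which meets `q` contains a corner of `q` -/
theorem meets_corner {q q' : P.Blk} (hc : P.cls q ≤ P.cls q') {x : ι} (hx : x ∈ P.sys.Q q)
    (hx' : x ∈ P.sys.Q q') : ∃ i, cor (P.rad q) (P.co q i).1 ∧
      (P.pos i).2 = (P.pos (P.ctr q)).2 ∧ i ∈ P.sys.Q q' := by
  obtain ⟨y, hy, hy'⟩ := RD.exists_corner (P.rad_le hc) (mem_bq.mp (P.mem_Q.mp hx))
    (mem_bq.mp (P.mem_Q.mp hx'))
  obtain ⟨i, hi⟩ := P.ran q (y, (P.pos (P.ctr q)).2) (mem_bq.mpr (RD.cor_bq (P.rad_ge q) hy))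
  refine ⟨i, ?_, by rw [hi], P.mem_Q.mpr (mem_bq.mpr (by unfold co; rw [hi]; exact hy'))⟩
  unfold co
  rw [hi]
  exact hy

/-- (g3): a pairwise disjoint family of blocks of class at least the one of `q` which meet `q` has
at most `2 ^ d` members -/
theorem g3 {q : P.Blk} {S : Finset P.Blk} (hc : ∀ q' ∈ S, P.cls q ≤ P.cls q')
    (hm : ∀ q' ∈ S, ¬ Disjoint (P.sys.Q q) (P.sys.Q q'))
    (hd : ∀ q' ∈ S, ∀ q'' ∈ S, q' ≠ q'' → Disjoint (P.sys.Q q') (P.sys.Q q'')) :
    S.card ≤ 2 ^ d := by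
  classical
  have hex : ∀ q' ∈ S, ∃ i, cor (P.rad q) (P.co q i).1 ∧
      (P.pos i).2 = (P.pos (P.ctr q)).2 ∧ i ∈ P.sys.Q q' := by
    intro q' hq'
    obtain ⟨x, hx, hx'⟩ := Finset.not_disjoint_iff.mp (hm q' hq')
    exact P.meets_corner (hc q' hq') hx hx'
  have : Nonempty ι := ⟨P.ctr q⟩
  choose! f hf1 hf3 hf2 using hex
  have hinj : Set.InjOn (fun q' => P.sg q (f q')) S := by
    intro q' hq' q'' hq'' hgg
    by_contra hne
    have c1 := hf1 q' hq'
    have c2 := hf1 q'' hq''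
    have heq : f q' = f q'' := by
      apply P.inj
      refine Prod.ext ?_ (by rw [hf3 q' hq', hf3 q'' hq''])
      apply RD.rel_inj' (s := (P.pos (P.ctr q)).1)
      funext j
      have h2 : j ∈ P.sg q (f q') ↔ j ∈ P.sg q (f q'') := by
        have : P.sg q (f q') = P.sg q (f q'') := hgg
        rw [this]
      simp only [sg, mem_filter, mem_univ, true_and] at h2
      have e1 : RD.rel (P.pos (P.ctr q)).1 (P.pos (f q')).1 j = P.rad q ∨
        RD.rel (P.pos (P.ctr q)).1 (P.pos (f q')).1 j = -P.rad q := c1 j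
      have e2 : RD.rel (P.pos (P.ctr q)).1 (P.pos (f q'')).1 j = P.rad q ∨
        RD.rel (P.pos (P.ctr q)).1 (P.pos (f q'')).1 j = -P.rad q := c2 j
      have h2 : RD.rel (P.pos (P.ctr q)).1 (P.pos (f q')).1 j = P.rad q ↔
        RD.rel (P.pos (P.ctr q)).1 (P.pos (f q'')).1 j = P.rad q := h2
      rcases e1 with e1 | e1 <;> rcases e2 with e2 | e2
      · rw [e1, e2]
      · rw [e1, h2.1 e1]
      · rw [e2, h2.2 e2]
      · rw [e1, e2]
    have hd1 := hd q' hq' q'' hq'' hne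
    have m1 := hf2 q' hq'
    have m2 := hf2 q'' hq''
    rw [← heq] at m2
    exact (Finset.disjoint_left.mp hd1) m1 m2
  calc S.card ≤ (Finset.univ : Finset (Finset (Fin d))).card :=
        Finset.card_le_card_of_injOn (fun q' => P.sg q (f q'))
          (fun _ _ => Finset.mem_coe.mpr (Finset.mem_univ _)) hinj
    _ = 2 ^ d := card_sg

/-- the interval `J0`, free of all windows -/
noncomputable def j0 : ℝ := c - 11 / 2 * P.G.r

/-- the right endpoint of `J0` -/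
noncomputable def j1 : ℝ := c - 9 / 2 * P.G.r

theorem j0_ge : -c ≤ P.j0 := by
  unfold j0
  linarith [P.c_ge, P.c_pos, P.G.r_pos, P.G.ρ_pos]

theorem j1_le : P.j1 ≤ c := by
  unfold j1
  linarith [P.G.r_pos]

theorem j1_sub : P.j1 - P.j0 = P.G.r := by
  unfold j0 j1; ring

/-- the sites of a block are the centre, the port sites and the inner sites -/
theorem Q_cases {q : P.Blk} {x : ι} (hx : x ∈ P.sys.Q q) (hw : x ≠ P.sys.w q) :
    P.co q x ∈ prt d F (P.rad q) ∨ P.co q x ∈ SX.inn d (P.rad q) (P.oo q) := by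
  rcases bq_cases (P.oo q) (P.mem_Q.mp hx) with h | h | h
  · exact Or.inl h
  · exact absurd (P.co_eq_one.mp h) hw
  · exact Or.inr h

/-- `J0` is disjoint from all windows -/
theorem J0_free {q : P.Blk} {x : ι} (hx : x ∈ P.sys.Q q) (hw : x ≠ P.sys.w q) :
    Disjoint (Set.Icc P.j0 P.j1) (Set.Icc (P.sys.lo q x) (P.sys.hi q x)) := by
  have hr := P.G.r_pos
  have h4 : P.sys.lo q x = P.lo q x := rfl
  have h5 : P.sys.hi q x = P.hi q x := rfl
  rw [h4, h5]
  rcases P.Q_cases hx hw with h | h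
  · have h1 := (P.prt_bd h).1
    have h2 := lw_pos (KK_pos d F) hr (P.num q)
    exact Icc_disj (by unfold j1; linarith)
  · have h1 := (P.inn_bd h).2
    exact (Icc_disj (by unfold j0; linarith)).symm

/-- the intervals `[-c, -c + r)` and `(c - r, c]` are free of windows -/
theorem ends_free {q : P.Blk} {x : ι} (hx : x ∈ P.sys.Q q) (hw : x ≠ P.sys.w q) :
    -c + P.G.r ≤ P.sys.lo q x ∧ P.sys.hi q x ≤ c - P.G.r := by
  have hr := P.G.r_pos
  have hc := P.c_ge
  have hρ := P.G.ρ_pos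
  have h4 : P.sys.lo q x = P.lo q x := rfl
  have h5 : P.sys.hi q x = P.hi q x := rfl
  rw [h4, h5]
  rcases P.Q_cases hx hw with h | h
  · have h1 := P.prt_bd h
    have h2 := lw_pos (KK_pos d F) hr (P.num q)
    constructor <;> linarith
  · have h1 := P.inn_bd h
    constructor <;> linarith

/-- the hidden law does not charge the ends of the interval -/
theorem hh_zero {q : P.Blk} {V : ι → ℝ} (h : P.sys.comp q V)
    (hg : P.sys.gg P.A q V ≤ P.G.r)
    (hV : V (P.sys.w q) ≤ -c + P.G.r ∨ c - P.G.r ≤ V (P.sys.w q)) : P.sys.hh P.A q V = 0 := by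
  unfold WO.Sys.hh
  have hz := P.ze_bd h
  have h1 := abs_nonneg (P.sys.ze P.A q V)
  have h2 : |P.sys.ze P.A q V| ≤ c - 6 * P.G.r := by linarith
  rw [abs_le] at h2
  have h3 : 5 * P.G.r ≤ |V (P.sys.w q) - P.sys.ze P.A q V| := by
    rcases hV with hV | hV
    · rw [abs_of_nonpos (by linarith [P.G.r_pos])]; linarith
    · rw [abs_of_nonneg (by linarith [P.G.r_pos])]; linarith
  have h6 : P.sys.r = P.G.r := rfl
  rw [h6, SL.ff_eq_zero (P.gg_pos h) P.G.r_pos hg h3, mul_zero]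

/-- lengths of the windows -/
theorem win_prt {q : P.Blk} {x : ι} (hx : P.co q x ∈ prt d F (P.rad q)) :
    P.sys.hi q x - P.sys.lo q x = lw (KK d F) P.G.r (P.num q) := by
  have h4 : P.sys.lo q x = P.lo q x := rfl
  have h5 : P.sys.hi q x = P.hi q x := rfl
  rw [h4, h5, P.lo_prt hx, P.hi_prt hx, jhi_sub]

theorem win_inn {q : P.Blk} {x : ι} (hx : P.co q x ∈ SX.inn d (P.rad q) (P.oo q)) :
    P.sys.hi q x - P.sys.lo q x = 2 * Real.exp (-(P.Cw * (P.num q : ℝ) ^ (d + 1))) := by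
  have h4 : P.sys.lo q x = P.lo q x := rfl
  have h5 : P.sys.hi q x = P.hi q x := rfl
  rw [h4, h5, P.lo_inn hx, P.hi_inn hx]
  unfold de
  ring

end Par

end Pool.Agent.Lib.MP_562b47_mp.SYR
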