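import Pool.Agent.Lib.MP_562b47_mp.SY.Gad
import Pool.Agent.Lib.MP_562b47_mp.RD.Conf
import Pool.Agent.Lib.MP_562b47_mp.RD.Lay
import Pool.Agent.Lib.MP_562b47_mp.WO.Defs

/-!
MP_562b47, slabs, bridge: the matrices of `WO` in terms of those of `SX`.
-/

open Finset Matrix

set_option linter.unusedSectionVars false

namespace Pool.Agent.Lib.MP_562b47_mp.SYR

open Pool.Agent.Lib.MP_562b47_mp.SX Pool.Agent.Lib.MP_562b47_mp.WO

variable {d : ℕ} {F : Type} [Fintype F] [DecidableEq F] [Thin F]

/-- coordinates relative to the block with centre `s`: only the long coordinates are shifted -/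
def rel (s x : St d F) : St d F := (RD.rel s.1 x.1, x.2)

/-- the block -/
noncomputable def bq (d : ℕ) (F : Type) [Fintype F] (m : ℤ) : Finset (St d F) :=
  RD.bq d m ×ˢ univ

theorem mem_bq {m : ℤ} {x : St d F} : x ∈ bq d F m ↔ x.1 ∈ RD.bq d m := by
  simp [bq]

theorem mem_qi1 {m : ℤ} {x : St d F} : x ∈ SX.qi d F m ↔ x.1 ∈ GD.qi d m := by
  simp [SX.qi]

theorem mem_prt1 {m : ℤ} {x : St d F} : x ∈ SX.prt d F m ↔ x.1 ∈ GD.prt d m := by
  simp [SX.prt]

theorem mem_inn1 {m : ℤ} {o : F} {x : St d F} :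
    x ∈ SX.inn d m o ↔ x ≠ ce d o ∧ x.1 ∈ GD.qi d m := by
  unfold SX.inn
  rw [mem_erase, mem_qi1]

theorem mem_prt {m : ℤ} {x : St d F} :
    x ∈ SX.prt d F m ↔ x ∈ bq d F m ∧ x ∉ SX.qi d F m := by
  rw [mem_prt1, mem_bq, mem_qi1, RD.mem_prt]

theorem mem_inn {m : ℤ} {o : F} {x : St d F} :
    x ∈ SX.inn d m o ↔ x ≠ ce d o ∧ x ∈ SX.qi d F m := by
  rw [mem_inn1, mem_qi1]

theorem qi_sub (m : ℤ) : SX.qi d F m ⊆ bq d F m := by
  intro x hx
  rw [mem_qi1] at hx
  rw [mem_bq]
  exact RD.qi_sub m hx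

theorem inn_sub (m : ℤ) (o : F) : SX.inn d m o ⊆ bq d F m :=
  fun _ hx => qi_sub m (mem_inn.mp hx).2

theorem ce_mem_qi {m : ℤ} (hm : 3 ≤ m) (o : F) : ce d o ∈ SX.qi d F m := by
  rw [mem_qi1]
  exact RD.one_mem_qi hm

theorem ce_not_prt {m : ℤ} (hm : 3 ≤ m) (o : F) : ce d o ∉ SX.prt d F m :=
  fun h => (mem_prt.mp h).2 (ce_mem_qi hm o)

theorem prt_inn {m : ℤ} {o : F} {x : St d F} (h : x ∈ SX.inn d m o) : x ∉ SX.prt d F m := by
  intro h'
  exact (mem_prt.mp h').2 (mem_inn.mp h).2

theorem bq_cases {m : ℤ} (o : F) {x : St d F} (h : x ∈ bq d F m) :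
    x ∈ SX.prt d F m ∨ x = ce d o ∨ x ∈ SX.inn d m o := by
  by_cases h1 : x ∈ SX.qi d F m
  · by_cases h2 : x = ce d o
    · exact Or.inr (Or.inl h2)
    · exact Or.inr (Or.inr (mem_inn.mpr ⟨h2, h1⟩))
  · exact Or.inl (mem_prt.mpr ⟨h, h1⟩)

theorem rel_self (s : St d F) : rel s s = ce d s.2 := by
  unfold rel ce
  rw [RD.rel_self]

theorem rel_inj' {s x y : St d F} (h : rel s x = rel s y) : x = y := by
  have h1 : (rel s x).1 = (rel s y).1 := by rw [h]
  have h2 : (rel s x).2 = (rel s y).2 := by rw [h]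
  exact Prod.ext (RD.rel_inj' (s := s.1) h1) h2

theorem gadj_rel {s x y : Fin d → ℤ} : GD.adj (RD.rel s x) (RD.rel s y) ↔ GD.adj x y := by
  constructor
  · rintro ⟨i, h | h⟩
    · exact ⟨i, Or.inl (RD.rel_inj' (s := s) (by rw [h, RD.rel_sh]))⟩
    · exact ⟨i, Or.inr (RD.rel_inj' (s := s) (by rw [h, RD.rel_sh]))⟩
  · rintro ⟨i, h | h⟩
    · exact ⟨i, Or.inl (by rw [h, RD.rel_sh])⟩
    · exact ⟨i, Or.inr (by rw [h, RD.rel_sh])⟩

theorem adj_rel {s x y : St d F} : adj (rel s x) (rel s y) ↔ adj x y := by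
  have h0 : ∀ x y : Fin d → ℤ, RD.rel s.1 x = RD.rel s.1 y ↔ x = y :=
    fun x y => ⟨fun h => RD.rel_inj' h, fun h => by rw [h]⟩
  unfold adj rel
  simp only
  rw [gadj_rel, h0]

/-- the site with relative coordinates `y` -/
def inv (s y : St d F) : St d F := (fun j => y.1 j + s.1 j - 1, y.2)

theorem rel_inv (s y : St d F) : rel s (inv s y) = y := by
  refine Prod.ext ?_ rfl
  funext j
  simp only [rel, inv, RD.rel]
  ring

theorem KM_symm (m : ℤ) (o : F) (W : St d F → ℝ) : (KM m o W)ᵀ = KM m o W := by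
  ext x y
  simp only [Matrix.transpose_apply, KM, Matrix.of_apply]
  by_cases hxy : x = y
  · subst hxy; rfl
  · rw [if_neg hxy, if_neg (Ne.symm hxy)]
    by_cases ha : adj (x : St d F) y
    · rw [if_pos ha, if_pos (adj_comm.mp ha)]
    · rw [if_neg ha, if_neg fun h => ha (adj_comm.mp h)]

theorem KI_symm (m : ℤ) (o : F) (W : St d F → ℝ) (x y : St d F) :
    KI m o W x y = KI m o W y x := by
  unfold KI
  by_cases hx : x ∈ SX.inn d m o
  · by_cases hy : y ∈ SX.inn d m o
    · rw [dif_pos hx, dif_pos hy, dif_pos hy, dif_pos hx]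
      have h : ((KM m o W)⁻¹)ᵀ = (KM m o W)⁻¹ := by
        rw [Matrix.transpose_nonsing_inv, KM_symm]
      conv_lhs => rw [← h]
      rfl
    · rw [dif_pos hx, dif_neg hy, dif_neg hy]
  · by_cases hy : y ∈ SX.inn d m o
    · rw [dif_neg hx, dif_pos hy, dif_neg hx]
    · rw [dif_neg hx, dif_neg hy]

section

variable {ι : Type*} [Fintype ι] [DecidableEq ι]

/-- the operator without the potential, shifted by the energy -/
noncomputable def AA (pos : ι → St d F) (kap : F → ℝ) (E : ℝ) : Matrix ι ι ℝ :=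
  Matrix.of fun x y =>
    (if x = y then 2 * d + kap (pos x).2 - E else 0) - if adj (pos x) (pos y) then 1 else 0

/-- the sites with relative coordinates in `P` -/
noncomputable def TT (pos : ι → St d F) (s : ι) (P : Finset (St d F)) : Finset ι :=
  univ.filter fun x => rel (pos s) (pos x) ∈ P

open Classical in
/-- the effective diagonal in relative coordinates -/
noncomputable def WW (pos : ι → St d F) (kap : F → ℝ) (E : ℝ) (s : ι) (V : ι → ℝ) (y : St d F) :
    ℝ :=
  if h : ∃ x : ι, rel (pos s) (pos x) = y then 2 * d + kap y.2 - E + V h.choose else 0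

variable {pos : ι → St d F} {kap : F → ℝ} {E : ℝ} {s : ι} {V : ι → ℝ} {m : ℤ}

theorem mem_TT {P : Finset (St d F)} {x : ι} : x ∈ TT pos s P ↔ rel (pos s) (pos x) ∈ P := by
  simp [TT]

theorem WW_rel (hpos : Function.Injective pos) (x : ι) :
    WW pos kap E s V (rel (pos s) (pos x)) = 2 * d + kap (pos x).2 - E + V x := by
  unfold WW
  have h : ∃ x' : ι, rel (pos s) (pos x') = rel (pos s) (pos x) := ⟨x, rfl⟩
  rw [dif_pos h]
  have := hpos (rel_inj' h.choose_spec)
  rw [this]
  rfl

/-- sums over a set of sites in relative coordinates -/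
theorem sum_TT (hpos : Function.Injective pos)
    (hr : ∀ x, rel (pos s) x ∈ bq d F m → x ∈ Set.range pos) {P : Finset (St d F)}
    (hP : P ⊆ bq d F m) (g : St d F → ℝ) :
    ∑ x ∈ TT pos s P, g (rel (pos s) (pos x)) = ∑ y ∈ P, g y := by
  refine Finset.sum_nbij (fun x => rel (pos s) (pos x)) ?_ ?_ ?_ ?_
  · intro x hx
    exact mem_TT.mp hx
  · intro x _ y _ hxy
    exact hpos (rel_inj' hxy)
  · intro y hy
    have hy' : y ∈ P := hy
    obtain ⟨x, hx⟩ := hr (inv (pos s) y) (by rw [rel_inv]; exact hP hy')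
    refine ⟨x, ?_, ?_⟩
    · rw [Finset.mem_coe, mem_TT, hx, rel_inv]; exact hy'
    · show rel (pos s) (pos x) = y
      rw [hx, rel_inv]
  · intro x _
    rfl

/-- the bijection between the inner sites and their relative coordinates -/
noncomputable def eqv (hpos : Function.Injective pos)
    (hr : ∀ x, rel (pos s) x ∈ bq d F m → x ∈ Set.range pos) :
    (TT pos s (SX.inn d m (pos s).2)) ≃ (SX.inn d m (pos s).2) :=
  Equiv.ofBijective (fun x => ⟨rel (pos s) (pos x.1), mem_TT.mp x.2⟩) (by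
    constructor
    · intro x y hxy
      have h := congrArg Subtype.val hxy
      exact Subtype.ext (hpos (rel_inj' h))
    · intro y
      obtain ⟨x, hx⟩ := hr (inv (pos s) y.1) (by rw [rel_inv]; exact inn_sub m _ y.2)
      refine ⟨⟨x, mem_TT.mpr (by rw [hx, rel_inv]; exact y.2)⟩, Subtype.ext ?_⟩
      show rel (pos s) (pos x) = y.1
      rw [hx, rel_inv])

theorem eqv_apply (hpos : Function.Injective pos)
    (hr : ∀ x, rel (pos s) x ∈ bq d F m → x ∈ Set.range pos)
    (x : TT pos s (SX.inn d m (pos s).2)) :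
    (eqv hpos hr x : St d F) = rel (pos s) (pos x.1) := rfl

theorem HS_eq (hpos : Function.Injective pos)
    (hr : ∀ x, rel (pos s) x ∈ bq d F m → x ∈ Set.range pos) :
    HS (AA pos kap E) (TT pos s (SX.inn d m (pos s).2)) V =
      (KM m (pos s).2 (WW pos kap E s V)).submatrix (eqv hpos hr) (eqv hpos hr) := by
  ext x y
  simp only [HS, AA, Matrix.of_apply, KM, Matrix.submatrix_apply, eqv_apply]
  by_cases hxy : x = y
  · subst hxy
    rw [if_pos rfl, if_pos rfl, if_pos rfl, if_neg adj_irrefl, if_neg adj_irrefl, WW_rel hpos]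
    ring
  · have h1 : (x : ι) ≠ y := fun h => hxy (Subtype.ext h)
    have h2 : eqv hpos hr x ≠ eqv hpos hr y := fun h => hxy ((eqv hpos hr).injective h)
    rw [if_neg h1, if_neg hxy, if_neg h2]
    by_cases ha : adj (pos x) (pos y)
    · rw [if_pos ha, if_pos (adj_rel.mpr ha)]; ring
    · rw [if_neg ha, if_neg fun h => ha (adj_rel.mp h)]; ring

theorem HS_det (hpos : Function.Injective pos)
    (hr : ∀ x, rel (pos s) x ∈ bq d F m → x ∈ Set.range pos) :
    (HS (AA pos kap E) (TT pos s (SX.inn d m (pos s).2)) V).det =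
      (KM m (pos s).2 (WW pos kap E s V)).det := by
  rw [HS_eq hpos hr, Matrix.det_submatrix_equiv_self]

theorem RS_eq (hpos : Function.Injective pos)
    (hr : ∀ x, rel (pos s) x ∈ bq d F m → x ∈ Set.range pos) (x y : ι) :
    RS (AA pos kap E) (TT pos s (SX.inn d m (pos s).2)) V x y =
      KI m (pos s).2 (WW pos kap E s V) (rel (pos s) (pos x)) (rel (pos s) (pos y)) := by
  unfold RS KI
  by_cases hx : x ∈ TT pos s (SX.inn d m (pos s).2)
  · by_cases hy : y ∈ TT pos s (SX.inn d m (pos s).2)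
    · rw [dif_pos hx, dif_pos hy, dif_pos (mem_TT.mp hx), dif_pos (mem_TT.mp hy), HS_eq hpos hr,
        Matrix.inv_submatrix_equiv]
      rfl
    · rw [dif_pos hx, dif_neg hy, dif_pos (mem_TT.mp hx), dif_neg fun h => hy (mem_TT.mpr h)]
  · rw [dif_neg hx, dif_neg fun h => hx (mem_TT.mpr h)]

/-- the response of the inner block to the centre, seen from a site `x` outside -/
theorem main_sum (hpos : Function.Injective pos)
    (hr : ∀ x, rel (pos s) x ∈ bq d F m → x ∈ Set.range pos) {x : ι}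
    (hx : x ∉ TT pos s (SX.inn d m (pos s).2)) :
    ∑ y, ∑ y', AA pos kap E s y *
      RS (AA pos kap E) (TT pos s (SX.inn d m (pos s).2)) V y y' * AA pos kap E y' x =
      ∑ y ∈ SX.inn d m (pos s).2, if adj (rel (pos s) (pos x)) y then
        SV m (pos s).2 (WW pos kap E s V) y else 0 := by
  set o : F := (pos s).2 with ho
  have hs : s ∉ TT pos s (SX.inn d m o) := by
    rw [mem_TT, rel_self, mem_inn]
    exact fun h => h.1 rfl
  rw [Finset.sum_comm]
  have h1 : ∀ y' : ι, ∑ y, AA pos kap E s y * RS (AA pos kap E) (TT pos s (SX.inn d m o)) V y y' *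
        AA pos kap E y' x =
      if y' ∈ TT pos s (SX.inn d m o) then
        (if adj (rel (pos s) (pos x)) (rel (pos s) (pos y')) then
          SV m o (WW pos kap E s V) (rel (pos s) (pos y')) else 0) else 0 := by
    intro y'
    by_cases hy' : y' ∈ TT pos s (SX.inn d m o)
    · rw [if_pos hy']
      have hyx : y' ≠ x := fun h => hx (h ▸ hy')
      have hA : AA pos kap E y' x =
          -(if adj (rel (pos s) (pos x)) (rel (pos s) (pos y')) then 1 else 0) := by
        simp only [AA, Matrix.of_apply]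
        rw [if_neg hyx, zero_sub]
        congr 1
        by_cases ha : adj (pos y') (pos x)
        · rw [if_pos ha, if_pos (adj_rel.mpr (adj_comm.mp ha))]
        · rw [if_neg ha, if_neg fun h => ha (adj_comm.mp (adj_rel.mp h))]
      rw [← Finset.sum_mul, hA]
      have hsum : ∑ y, AA pos kap E s y *
            RS (AA pos kap E) (TT pos s (SX.inn d m o)) V y y' =
          -SV m o (WW pos kap E s V) (rel (pos s) (pos y')) := by
        unfold SV
        rw [← sum_TT hpos hr (inn_sub m o), ← Finset.sum_neg_distrib,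
          ← Finset.sum_subset (Finset.subset_univ (TT pos s (SX.inn d m o)))]
        · apply Finset.sum_congr rfl
          intro y hy
          have hsy : s ≠ y := fun h => hs (h ▸ hy)
          rw [RS_eq hpos hr, KI_symm]
          simp only [AA, Matrix.of_apply]
          rw [if_neg hsy, ho, ← rel_self (pos s)]
          by_cases ha : adj (pos s) (pos y)
          · rw [if_pos ha, if_pos (adj_rel.mpr ha)]; ring
          · rw [if_neg ha, if_neg fun h => ha (adj_rel.mp h)]; ring
        · intro y _ hy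
          have : RS (AA pos kap E) (TT pos s (SX.inn d m o)) V y y' = 0 := by
            unfold RS
            rw [dif_neg hy]
          rw [this, mul_zero]
      rw [hsum]
      split_ifs <;> ring
    · rw [if_neg hy']
      apply Finset.sum_eq_zero
      intro y _
      have : RS (AA pos kap E) (TT pos s (SX.inn d m o)) V y y' = 0 := by
        unfold RS
        split_ifs <;> rfl
      rw [this]; ring
  rw [Finset.sum_congr rfl fun y' _ => h1 y', Finset.sum_ite_mem, Finset.univ_inter]
  exact sum_TT hpos hr (inn_sub m o) (fun y => if adj (rel (pos s) (pos x)) y then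
    SV m o (WW pos kap E s V) y else 0)

end

end Pool.Agent.Lib.MP_562b47_mp.SYR
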