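import Pool.Agent.Lib.MP_562b47_mp.SYR.Sys

/-!
MP_562b47, slabs, bridge: the instance is good, with explicit bounds.
-/

open Finset Matrix

set_option linter.unusedSectionVars false

namespace Pool.Agent.Lib.MP_562b47_mp.SYR

open Pool.Agent.Lib.MP_562b47_mp.SX Pool.Agent.Lib.MP_562b47_mp.WO
open Pool.Agent.Lib.MP_562b47_mp.RD (lw jlo jhi lw_pos jhi_sub jlo_ge' jhi_le' jlo_lt_jhi J_disj Icc_disj)

namespace Par

variable {d : ℕ} {c : ℝ} {F : Type} [Fintype F] [DecidableEq F] [Thin F] {ι : Type*} [Fintype ι]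
  [DecidableEq ι] (P : Par d c F ι)

/-- the hopping matrix -/
noncomputable def A : Matrix ι ι ℝ := AA P.pos P.kap P.E

/-- the effective diagonal of the block -/
noncomputable def W (q : P.Blk) (V : ι → ℝ) : St d F → ℝ := WW P.pos P.kap P.E (P.ctr q) V

theorem A_symm : P.A.IsSymm := by
  ext x y
  simp only [A, AA, Matrix.transpose_apply, Matrix.of_apply]
  by_cases hxy : x = y
  · subst hxy; rfl
  · rw [if_neg hxy, if_neg (Ne.symm hxy)]
    by_cases ha : adj (P.pos x) (P.pos y)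
    · rw [if_pos ha, if_pos (adj_comm.mp ha)]
    · rw [if_neg ha, if_neg fun h => ha (adj_comm.mp h)]

theorem mem_Q {q : P.Blk} {x : ι} : x ∈ P.sys.Q q ↔ P.co q x ∈ bq d F (P.rad q) := mem_TT

theorem mem_L {q : P.Blk} {x : ι} : x ∈ P.sys.L q ↔ P.co q x ∈ prt d F (P.rad q) := mem_TT

theorem mem_qi' {q : P.Blk} {x : ι} : x ∈ P.sys.qi q ↔ P.co q x ∈ SX.qi d F (P.rad q) := by
  have h1 : P.sys.qi q = P.sys.Q q \ P.sys.L q := rfl
  rw [h1, Finset.mem_sdiff, mem_Q, mem_L, mem_prt]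
  constructor
  · intro h
    by_contra hc
    exact h.2 ⟨h.1, hc⟩
  · intro h
    exact ⟨qi_sub _ h, fun h' => h'.2 h⟩

theorem mem_inn' {q : P.Blk} {x : ι} : x ∈ P.sys.inn q ↔ P.co q x ∈ SX.inn d (P.rad q) (P.oo q) := by
  have h1 : P.sys.inn q = (P.sys.qi q).erase (P.ctr q) := rfl
  rw [h1, Finset.mem_erase, mem_qi', SYR.mem_inn, Ne, Ne, P.co_eq_one]

theorem inn_eq (q : P.Blk) : P.sys.inn q = TT P.pos (P.ctr q) (SX.inn d (P.rad q) (P.oo q)) := by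
  ext x
  rw [mem_inn', mem_TT]
  rfl

theorem L_eq (q : P.Blk) : P.sys.L q = TT P.pos (P.ctr q) (prt d F (P.rad q)) := rfl

theorem exists_site {q : P.Blk} {y : St d F} (hy : y ∈ bq d F (P.rad q)) :
    ∃ x, P.co q x = y := by
  obtain ⟨x, hx⟩ := P.ran q (inv (P.pos (P.ctr q)) y) (by rw [rel_inv]; exact hy)
  refine ⟨x, ?_⟩
  unfold co
  rw [hx, rel_inv]

/-- in a complete block the effective diagonal is close to the one of the gadget -/
theorem near {q : P.Blk} {V : ι → ℝ} (h : P.sys.comp q V) :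
    ∀ y ∈ SX.inn d (P.rad q) (P.oo q), |P.W q V y - P.G.Vs (P.num q) (P.oo q) y| ≤ P.de (P.num q) := by
  intro y hy
  obtain ⟨x, rfl⟩ := P.exists_site (inn_sub _ _ hy)
  have h1 : P.W q V (P.co q x) = 2 * d + P.kap (P.pos x).2 - P.E + V x := WW_rel P.inj x
  rw [h1]
  have hx : x ≠ P.sys.w q := by
    intro hx
    have h2 : P.co q x = ce d (P.oo q) := P.co_eq_one.mpr hx
    exact (SYR.mem_inn.mp hy).1 h2
  have h3 := h x (P.mem_Q.mpr (inn_sub _ _ hy)) hx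
  have h4 : P.sys.lo q x = P.lo q x := rfl
  have h5 : P.sys.hi q x = P.hi q x := rfl
  rw [h4, h5, P.lo_inn hy, P.hi_inn hy] at h3
  rw [abs_le]
  constructor <;> linarith [h3.1, h3.2]

/-- the theorem on the gadget for a complete block -/
theorem gad {q : P.Blk} {V : ι → ℝ} (h : P.sys.comp q V) :
    (KM (P.rad q) (P.oo q) (P.W q V)).det ≠ 0 ∧
      (∀ x y, |KI (P.rad q) (P.oo q) (P.W q V) x y| ≤ Real.exp (P.G.C * (P.num q : ℝ) ^ (d + 1))) ∧
      |ze0 (P.rad q) (P.oo q) (P.W q V) - P.G.v (P.oo q)| ≤ P.G.ρ ∧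
      P.G.z ^ (2 * P.num q) / P.G.C ≤ ∑ x ∈ prt d F (P.rad q), ph0 (P.rad q) (P.oo q) (P.W q V) x ^ 2 ∧
      ∑ x ∈ prt d F (P.rad q), ph0 (P.rad q) (P.oo q) (P.W q V) x ^ 2 ≤
        P.G.C * (P.num q : ℝ) ^ d * P.G.z ^ (2 * P.num q) :=
  P.G.gad (P.num q) (P.oo q) (P.one_le_num q) (P.W q V) fun x hx => (P.near h x hx).trans (P.de_le _)

theorem det_ne {q : P.Blk} {V : ι → ℝ} (h : P.sys.comp q V) :
    (HS P.A (P.sys.inn q) V).det ≠ 0 := by
  rw [P.inn_eq]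
  have h1 : (HS P.A (TT P.pos (P.ctr q) (SX.inn d (P.rad q) (P.oo q))) V).det =
      (KM (P.rad q) (P.oo q) (P.W q V)).det := HS_det P.inj (P.ran q)
  rw [h1]
  exact (P.gad h).1

theorem RS_eq' (q : P.Blk) (V : ι → ℝ) (x y : ι) :
    RS P.A (P.sys.inn q) V x y = KI (P.rad q) (P.oo q) (P.W q V) (P.co q x) (P.co q y) := by
  rw [P.inn_eq]
  exact RS_eq P.inj (P.ran q) x y

/-- the elliptic constant -/
theorem RS_le {q : P.Blk} {V : ι → ℝ} (h : P.sys.comp q V) (x y : ι) :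
    |RS P.A (P.sys.inn q) V x y| ≤ Real.exp (P.G.C * (P.num q : ℝ) ^ (d + 1)) := by
  rw [P.RS_eq']
  exact (P.gad h).2.1 _ _

theorem ze_eq (q : P.Blk) (V : ι → ℝ) :
    P.sys.ze P.A q V = P.E - 2 * d - P.kap (P.oo q) + ze0 (P.rad q) (P.oo q) (P.W q V) := by
  have hs : P.ctr q ∉ TT P.pos (P.ctr q) (SX.inn d (P.rad q) (P.oo q)) := by
    rw [mem_TT, rel_self, SYR.mem_inn]
    exact fun h => h.1 rfl
  have h1 : ∑ y, ∑ y', AA P.pos P.kap P.E (P.ctr q) y *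
        RS (AA P.pos P.kap P.E) (TT P.pos (P.ctr q) (SX.inn d (P.rad q) (P.oo q))) V y y' *
        AA P.pos P.kap P.E y' (P.ctr q) =
      ∑ y ∈ SX.inn d (P.rad q) (P.oo q), if adj (ce d (P.oo q)) y then
        SV (P.rad q) (P.oo q) (P.W q V) y else 0 := by
    have h0 := main_sum (kap := P.kap) (E := P.E) (V := V) P.inj (P.ran q) hs
    rw [rel_self] at h0
    exact h0
  have h2 : P.sys.ze P.A q V = -(P.A (P.ctr q) (P.ctr q)) +
      ∑ y, ∑ y', AA P.pos P.kap P.E (P.ctr q) y *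
        RS (AA P.pos P.kap P.E) (TT P.pos (P.ctr q) (SX.inn d (P.rad q) (P.oo q))) V y y' *
        AA P.pos P.kap P.E y' (P.ctr q) := by
    unfold WO.Sys.ze
    rw [P.inn_eq]
    rfl
  rw [h2, h1]
  have h3 : P.A (P.ctr q) (P.ctr q) = 2 * d + P.kap (P.oo q) - P.E := by
    simp only [A, AA, Matrix.of_apply]
    rw [if_neg adj_irrefl, sub_zero]
    exact if_pos trivial
  rw [h3]
  unfold ze0
  ring

theorem ph_eq {q : P.Blk} (V : ι → ℝ) {x : ι} (hx : x ∉ P.sys.inn q) :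
    P.sys.ph P.A q V x = ph0 (P.rad q) (P.oo q) (P.W q V) (P.co q x) := by
  rw [P.inn_eq] at hx
  have h1 : ∑ y, ∑ y', AA P.pos P.kap P.E (P.ctr q) y *
        RS (AA P.pos P.kap P.E) (TT P.pos (P.ctr q) (SX.inn d (P.rad q) (P.oo q))) V y y' *
        AA P.pos P.kap P.E y' x =
      ∑ y ∈ SX.inn d (P.rad q) (P.oo q), if adj (P.co q x) y then
        SV (P.rad q) (P.oo q) (P.W q V) y else 0 :=
    main_sum (kap := P.kap) (E := P.E) (V := V) P.inj (P.ran q) hx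
  have h2 : P.sys.ph P.A q V x = -∑ y, ∑ y', AA P.pos P.kap P.E (P.ctr q) y *
        RS (AA P.pos P.kap P.E) (TT P.pos (P.ctr q) (SX.inn d (P.rad q) (P.oo q))) V y y' *
        AA P.pos P.kap P.E y' x := by
    unfold WO.Sys.ph
    rw [P.inn_eq]
    rfl
  rw [h2, h1]
  rfl

theorem sum_ph (q : P.Blk) (V : ι → ℝ) :
    ∑ x ∈ P.sys.L q, P.sys.ph P.A q V x ^ 2 =
      ∑ y ∈ prt d F (P.rad q), ph0 (P.rad q) (P.oo q) (P.W q V) y ^ 2 := by
  have hsub : prt d F (P.rad q) ⊆ bq d F (P.rad q) := fun y hy => (mem_prt.mp hy).1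
  have h1 := sum_TT P.inj (P.ran q) hsub (fun y => ph0 (P.rad q) (P.oo q) (P.W q V) y ^ 2)
  rw [← h1, P.L_eq]
  apply Finset.sum_congr rfl
  intro x hx
  rw [P.ph_eq]
  · rfl
  · rw [P.mem_inn']
    intro h
    exact prt_inn h (mem_TT.mp hx)

theorem sum_ph_ge {q : P.Blk} {V : ι → ℝ} (h : P.sys.comp q V) :
    P.G.z ^ (2 * P.num q) / P.G.C ≤ ∑ x ∈ P.sys.L q, P.sys.ph P.A q V x ^ 2 := by
  rw [P.sum_ph]; exact (P.gad h).2.2.2.1

theorem sum_ph_le {q : P.Blk} {V : ι → ℝ} (h : P.sys.comp q V) :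
    ∑ x ∈ P.sys.L q, P.sys.ph P.A q V x ^ 2 ≤
      P.G.C * (P.num q : ℝ) ^ d * P.G.z ^ (2 * P.num q) := by
  rw [P.sum_ph]; exact (P.gad h).2.2.2.2

theorem lw_sys (j : ℕ) : P.sys.lw j = lw (KK d F) P.G.r (P.N0 + j) := rfl

theorem gg_eq (q : P.Blk) (V : ι → ℝ) :
    P.sys.gg P.A q V =
      2 / lw (KK d F) P.G.r (P.num q) * ∑ x ∈ P.sys.L q, P.sys.ph P.A q V x ^ 2 := rfl

/-- lower bound of the strength of the absorber -/
theorem gg_ge {q : P.Blk} {V : ι → ℝ} (h : P.sys.comp q V) :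
    2 / lw (KK d F) P.G.r (P.num q) * (P.G.z ^ (2 * P.num q) / P.G.C) ≤ P.sys.gg P.A q V := by
  rw [P.gg_eq]
  have := lw_pos (KK_pos d F) P.G.r_pos (P.num q)
  exact mul_le_mul_of_nonneg_left (P.sum_ph_ge h) (by positivity)

theorem gg_le {q : P.Blk} {V : ι → ℝ} (h : P.sys.comp q V) :
    P.sys.gg P.A q V ≤
      2 / lw (KK d F) P.G.r (P.num q) * (P.G.C * (P.num q : ℝ) ^ d * P.G.z ^ (2 * P.num q)) := by
  rw [P.gg_eq]
  have := lw_pos (KK_pos d F) P.G.r_pos (P.num q)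
  exact mul_le_mul_of_nonneg_left (P.sum_ph_le h) (by positivity)

theorem gg_pos {q : P.Blk} {V : ι → ℝ} (h : P.sys.comp q V) : 0 < P.sys.gg P.A q V := by
  refine lt_of_lt_of_le ?_ (P.gg_ge h)
  have h1 := lw_pos (KK_pos d F) P.G.r_pos (P.num q)
  have h2 := P.G.z_pos
  have h3 : 0 < P.G.C := by linarith [P.G.C_ge]
  positivity

/-- the resonant value, with more room than in `WO.Good` -/
theorem ze_bd {q : P.Blk} {V : ι → ℝ} (h : P.sys.comp q V) :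
    |P.sys.ze P.A q V| + 6 * P.G.r ≤ c := by
  rw [P.ze_eq]
  have h1 := (P.gad h).2.2.1
  have h2 := P.adm (P.oo q)
  have h3 : P.E - 2 * d - P.kap (P.oo q) + ze0 (P.rad q) (P.oo q) (P.W q V) =
      (P.E - 2 * d - P.kap (P.oo q) + P.G.v (P.oo q)) +
        (ze0 (P.rad q) (P.oo q) (P.W q V) - P.G.v (P.oo q)) := by ring
  rw [h3]
  have := abs_add_le (P.E - 2 * d - P.kap (P.oo q) + P.G.v (P.oo q))
    (ze0 (P.rad q) (P.oo q) (P.W q V) - P.G.v (P.oo q))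
  linarith

/-- a neighbour of a site of the inner block is in the block -/
theorem adj_bq {m : ℤ} {x y : St d F} (h : adj x y) (hx : x ∈ SX.qi d F m) :
    y ∈ bq d F m := by
  have hx' := mem_qi1.mp hx
  rw [mem_bq]
  rcases h with ⟨h, -⟩ | ⟨h, -⟩
  · rw [RD.mem_qi] at hx'
    rw [RD.mem_bq]
    intro j
    have h0 := hx' j
    obtain ⟨i, h | h⟩ := h
    · rw [h]
      rcases RD.sh_val x.1 i j 1 with ⟨-, h2⟩ | ⟨-, h2⟩ <;> rw [h2] <;> omega
    · rw [h]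
      rcases RD.sh_val x.1 i j (-1) with ⟨-, h2⟩ | ⟨-, h2⟩ <;> rw [h2] <;> omega
  · rw [← h]
    exact RD.qi_sub m hx'

theorem sep' (q : P.Blk) : ∀ x ∈ P.sys.qi q, ∀ y, y ∉ P.sys.Q q → P.A x y = 0 := by
  intro x hx y hy
  rw [P.mem_qi'] at hx
  rw [P.mem_Q] at hy
  have hne : x ≠ y := by
    rintro rfl
    exact hy (qi_sub _ hx)
  have ha : ¬ adj (P.pos x) (P.pos y) := by
    intro ha
    apply hy
    have h1 : adj (P.co q x) (P.co q y) := adj_rel.mpr ha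
    exact adj_bq h1 hx
  simp only [A, AA, Matrix.of_apply]
  rw [if_neg hne, if_neg ha, sub_zero]

/-- for `N0` large the absorbers are weaker than `r` -/
theorem _root_.Pool.Agent.Lib.MP_562b47_mp.SYR.Gd.exists_N1 (G : Gd d c F) : ∃ N1 : ℕ, 1 ≤ N1 ∧
    ∀ N : ℕ, N1 ≤ N →
      2 / lw (KK d F) G.r N * (G.C * (N : ℝ) ^ d * G.z ^ (2 * N)) ≤ G.r := by
  have h1 : Filter.Tendsto (fun N : ℕ => (N : ℝ) ^ (d + 2) * (G.z ^ 2) ^ N) Filter.atTop
      (nhds 0) := by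
    apply tendsto_pow_const_mul_const_pow_of_abs_lt_one
    rw [abs_of_nonneg (by positivity)]
    exact pow_lt_one₀ G.z_pos.le G.z_lt (by norm_num)
  have hC : 0 < G.C := by linarith [G.C_ge]
  have hr := G.r_pos
  have hK : (0 : ℝ) < KK d F := by exact_mod_cast KK_pos d F
  have h2 : 0 < G.r ^ 2 / (12 * KK d F * G.C) := by positivity
  obtain ⟨N1, hN1⟩ := Filter.eventually_atTop.mp (h1.eventually (gt_mem_nhds h2))
  refine ⟨max N1 1, le_max_right _ _, fun N hN => ?_⟩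
  have h3 := hN1 N ((le_max_left _ _).trans hN)
  have hN' : (1 : ℝ) ≤ N := by exact_mod_cast (le_max_right N1 1).trans hN
  have h4 : 2 / lw (KK d F) G.r N = 2 * KK d F * (((N : ℝ) + 1) * (N + 2)) / G.r := by
    unfold lw
    field_simp
  rw [h4]
  have hNd : (0 : ℝ) ≤ (N : ℝ) ^ d := by positivity
  have h5 : ((N : ℝ) + 1) * (N + 2) * (N : ℝ) ^ d ≤ 6 * (N : ℝ) ^ (d + 2) := by
    have h51 : ((N : ℝ) + 1) * (N + 2) ≤ 6 * (N : ℝ) ^ 2 := by nlinarith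
    calc ((N : ℝ) + 1) * (N + 2) * (N : ℝ) ^ d ≤ 6 * (N : ℝ) ^ 2 * (N : ℝ) ^ d :=
          mul_le_mul_of_nonneg_right h51 hNd
      _ = 6 * (N : ℝ) ^ (d + 2) := by ring
  have h6 : G.z ^ (2 * N) = (G.z ^ 2) ^ N := by rw [pow_mul]
  have h7 : 0 < (G.z ^ 2) ^ N := by have := G.z_pos; positivity
  rw [h6]
  have h8 : (N : ℝ) ^ (d + 2) * (G.z ^ 2) ^ N * (12 * KK d F * G.C) < G.r ^ 2 := by
    rwa [lt_div_iff₀ (by positivity)] at h3
  rw [div_mul_eq_mul_div, div_le_iff₀ hr]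
  calc 2 * KK d F * (((N : ℝ) + 1) * (N + 2)) * (G.C * (N : ℝ) ^ d * (G.z ^ 2) ^ N)
      = 2 * KK d F * G.C * ((((N : ℝ) + 1) * (N + 2) * (N : ℝ) ^ d) * (G.z ^ 2) ^ N) := by ring
    _ ≤ 2 * KK d F * G.C * ((6 * (N : ℝ) ^ (d + 2)) * (G.z ^ 2) ^ N) := by
        apply mul_le_mul_of_nonneg_left _ (by positivity)
        exact mul_le_mul_of_nonneg_right h5 h7.le
    _ = (N : ℝ) ^ (d + 2) * (G.z ^ 2) ^ N * (12 * KK d F * G.C) := by ring
    _ ≤ G.r * G.r := by nlinarith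

/-- the instance is good -/
theorem good {N1 : ℕ} (hN1 : ∀ N : ℕ, N1 ≤ N →
    2 / lw (KK d F) P.G.r N * (P.G.C * (N : ℝ) ^ d * P.G.z ^ (2 * N)) ≤ P.G.r) (hN : N1 ≤ P.N0) :
    WO.Good P.sys P.A where
  symm := P.A_symm
  sep := P.sep'
  inv := fun _ _ h => P.det_ne h
  g_pos := fun _ _ h => P.gg_pos h
  g_le := fun q _ h => (P.gg_le h).trans (hN1 (P.num q) (hN.trans (P.num_ge q)))
  ze_mem := fun _ _ h => by
    have h1 := P.ze_bd h
    have h2 := P.G.r_pos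
    have h3 : P.sys.r = P.G.r := rfl
    have h4 : P.sys.c = c := rfl
    rw [h3, h4]
    linarith

end Par

end Pool.Agent.Lib.MP_562b47_mp.SYR
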